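import Mathlib

/-!
# Moments up to a given order do not determine discrete Gaussians with a fixed parameter

For `g = N + 1` let `B` be (a multiple of) the real symmetric matrix of the quadratic form
`N m² + ∑ₖ (nₖ² + nₖ m)`, where `m` is the coordinate `0` and `n₁, …, n_N` are the others.  The two
discrete Gaussians with parameter `B` whose weights are `(-1)^(∑ nₖ)` and `(-1)^(m + ∑ nₖ)` times
the real Gaussian weight are exchanged by each of the `N` involutions `nₖ ↦ - nₖ - m`.  Hence all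
moments which do not involve every `nₖ` agree, and these include all moments of order less than `N`.
-/

set_option autoImplicit false

namespace Pool.Agent.Results.MP_405529_ag.FixedParameterFails

open Filter Topology

/-- The number `e^{2π (nᵗ u - ½ nᵗ B n)}`. -/
noncomputable def weight {g : ℕ} (u : Fin g → ℂ) (B : Matrix (Fin g) (Fin g) ℂ) (n : Fin g → ℤ) :
    ℂ :=
  Complex.exp (2 * Real.pi *
    ((∑ i, (n i : ℂ) * u i) - (1 / 2) * ∑ i, ∑ j, (n i : ℂ) * B i j * (n j : ℂ)))

/-- `B` is in `ℍ_g`: it is symmetric and its real part is positive definite. -/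
def IsParameter {g : ℕ} (B : Matrix (Fin g) (Fin g) ℂ) : Prop :=
  B.IsSymm ∧ (B.map Complex.re).PosDef

/-- The theta function `θ(u, B)`. -/
noncomputable def theta {g : ℕ} (u : Fin g → ℂ) (B : Matrix (Fin g) (Fin g) ℂ) : ℂ :=
  ∑' n : Fin g → ℤ, weight u B n

/-- The discrete Gaussian `p(n; u, B)`, a function on `ℤ^g`. -/
noncomputable def gaussian {g : ℕ} (u : Fin g → ℂ) (B : Matrix (Fin g) (Fin g) ℂ) :
    (Fin g → ℤ) → ℂ :=
  fun n => weight u B n / theta u B

/-- The moment `m_α(u, B)`. -/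
noncomputable def moment {g : ℕ} (u : Fin g → ℂ) (B : Matrix (Fin g) (Fin g) ℂ) (α : Fin g → ℕ) :
    ℂ :=
  ∑' n : Fin g → ℤ, (∏ i, (n i : ℂ) ^ α i) * gaussian u B n

/-- Moments up to order `d` determine the discrete Gaussians in dimension `g` with a fixed
parameter. -/
def FixedParameterDetermined (g d : ℕ) : Prop :=
  ∀ B : Matrix (Fin g) (Fin g) ℂ, IsParameter B → ∀ u u' : Fin g → ℂ,
    theta u B ≠ 0 → theta u' B ≠ 0 →
    (∀ α : Fin g → ℕ, ∑ i, α i ≤ d → moment u B α = moment u' B α) →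
    ∀ n, gaussian u B n = gaussian u' B n

/-! ### Symmetries -/

theorem moment_eq_of_equiv {g : ℕ} (u u' : Fin g → ℂ) (B : Matrix (Fin g) (Fin g) ℂ)
    (e : (Fin g → ℤ) ≃ (Fin g → ℤ)) (he : ∀ n, weight u' B (e n) = weight u B n)
    (α : Fin g → ℕ) (hα : ∀ n, ∏ i, (e n i : ℂ) ^ α i = ∏ i, (n i : ℂ) ^ α i) :
    moment u B α = moment u' B α := by
  have h0 : theta u B = theta u' B := by
    unfold theta
    rw [← e.tsum_eq (fun n : Fin g → ℤ => weight u' B n)]
    exact tsum_congr fun n => (he n).symm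
  unfold moment
  rw [← e.tsum_eq (fun n : Fin g → ℤ => (∏ i, (n i : ℂ) ^ α i) * gaussian u' B n)]
  refine tsum_congr fun n => ?_
  rw [hα, gaussian, gaussian, he, h0]

theorem moment_odd {g : ℕ} (u : Fin g → ℂ) (B : Matrix (Fin g) (Fin g) ℂ)
    (he : ∀ n, weight u B (-n) = weight u B n)
    (α : Fin g → ℕ) (hα : Odd (∑ i, α i)) : moment u B α = 0 := by
  have h : moment u B α = - moment u B α := by
    unfold moment
    rw [← tsum_neg, ← (Equiv.neg (Fin g → ℤ)).tsum_eq]
    refine tsum_congr fun n => ?_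
    simp only [Equiv.neg_apply, gaussian, he]
    have : ∏ i, (((-n) i : ℤ) : ℂ) ^ α i = - ∏ i, (n i : ℂ) ^ α i := by
      have h1 : ∀ i, (((-n) i : ℤ) : ℂ) ^ α i = (-1) ^ α i * (n i : ℂ) ^ α i := by
        intro i
        rw [Pi.neg_apply, Int.cast_neg, neg_pow]
      simp only [h1]
      rw [Finset.prod_mul_distrib, Finset.prod_pow_eq_pow_sum, hα.neg_one_pow]
      ring
    rw [this]
    ring
  have h2 : (2 : ℂ) * moment u B α = 0 := by linear_combination h
  simpa using h2

/-! ### The example -/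

/-- the integral quadratic form -/
def Q (N : ℕ) (n : Fin (N + 1) → ℤ) : ℤ :=
  N * n 0 ^ 2 + ∑ k : Fin N, (n k.succ ^ 2 + n k.succ * n 0)

/-- the matrix of the quadratic form -/
noncomputable def M (N : ℕ) (t : ℝ) : Matrix (Fin (N + 1)) (Fin (N + 1)) ℂ :=
  fun i j => (t : ℂ) * (if i = j then (if i = 0 then (N : ℂ) else 1) else
    if i = 0 ∨ j = 0 then 1 / 2 else 0)

/-- the vector with imaginary entries `ε / 2, 1 / 2, …, 1 / 2` -/
noncomputable def U (N : ℕ) (ε : ℤ) : Fin (N + 1) → ℂ :=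
  Fin.cons ((ε : ℂ) * Complex.I / 2) (fun _ => Complex.I / 2)

theorem form_eq {R : Type*} [Field R] (N : ℕ) (t : R) (x : Fin (N + 1) → R) (h2 : (2 : R) ≠ 0) :
    ∑ i, ∑ j, x i * (t * (if i = j then (if i = 0 then (N : R) else 1) else
      if i = 0 ∨ j = 0 then 1 / 2 else 0)) * x j =
    t * (N * x 0 ^ 2 + ∑ k : Fin N, (x k.succ ^ 2 + x k.succ * x 0)) := by
  have h1 : ∀ k : Fin N, ∑ j, x k.succ * (t * (if k.succ = j then (if k.succ = 0 then (N : R) else 1)
      else if k.succ = 0 ∨ j = 0 then 1 / 2 else 0)) * x j =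
      t * (x k.succ ^ 2 + 1 / 2 * (x k.succ * x 0)) := by
    intro k
    rw [Fin.sum_univ_succ]
    have h4 : ∀ l : Fin N, x k.succ * (t * (if k.succ = l.succ then
      (if k.succ = 0 then (N : R) else 1)
      else if k.succ = 0 ∨ l.succ = 0 then 1 / 2 else 0)) * x l.succ =
        if k = l then t * x k.succ ^ 2 else 0 := by
      intro l
      by_cases h : k = l
      · subst h
        rw [if_pos rfl, if_neg (Fin.succ_ne_zero k), if_pos rfl]
        ring
      · have h' : k.succ ≠ l.succ := fun h'' => h (Fin.succ_injective _ h'')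
        rw [if_neg h', if_neg (by simp [Fin.succ_ne_zero]), if_neg h]
        ring
    rw [Finset.sum_congr rfl fun l _ => h4 l, Finset.sum_ite_eq, if_pos (Finset.mem_univ k),
      if_neg (Fin.succ_ne_zero k), if_pos (Or.inr rfl)]
    ring
  have h3 : ∀ l : Fin N, x 0 * (t * (if (0 : Fin (N + 1)) = l.succ then
      (if (0 : Fin (N + 1)) = 0 then (N : R) else 1)
      else if (0 : Fin (N + 1)) = 0 ∨ l.succ = 0 then 1 / 2 else 0)) * x l.succ =
      t * (1 / 2 * (x l.succ * x 0)) := by
    intro l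
    rw [if_neg (Fin.succ_ne_zero l).symm, if_pos (Or.inl rfl)]
    ring
  rw [Fin.sum_univ_succ, Finset.sum_congr rfl fun k _ => h1 k, Fin.sum_univ_succ,
    Finset.sum_congr rfl fun l _ => h3 l, if_pos rfl, if_pos rfl,
    ← Finset.mul_sum, ← Finset.mul_sum, ← Finset.mul_sum, Finset.sum_add_distrib,
    Finset.sum_add_distrib, ← Finset.mul_sum]
  field_simp
  ring

theorem exp_int (k : ℤ) : Complex.exp (Real.pi * Complex.I * k) = (-1) ^ k := by
  rw [mul_comm, Complex.exp_int_mul, Complex.exp_pi_mul_I]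

theorem weight_eq (N : ℕ) (t : ℝ) (ε : ℤ) (n : Fin (N + 1) → ℤ) :
    weight (U N ε) (M N t) n =
      (-1) ^ (ε * n 0 + ∑ k : Fin N, n k.succ) * (Real.exp (-(Real.pi * t * Q N n)) : ℂ) := by
  unfold weight
  have h := form_eq N (t : ℂ) (fun i => (n i : ℂ)) two_ne_zero
  simp only [M]
  rw [h, Fin.sum_univ_succ, Complex.ofReal_exp, ← exp_int, ← Complex.exp_add]
  congr 1
  simp only [U, Fin.cons_zero, Fin.cons_succ, Q]
  rw [← Finset.sum_mul]
  push_cast
  ring

/-- the involution `n_k ↦ - n_k - n_0` -/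
def flip (N : ℕ) (k : Fin N) : (Fin (N + 1) → ℤ) ≃ (Fin (N + 1) → ℤ) where
  toFun n := Function.update n k.succ (- n k.succ - n 0)
  invFun n := Function.update n k.succ (- n k.succ - n 0)
  left_inv n := by
    funext i
    by_cases h : i = k.succ
    · subst h
      simp [Function.update_of_ne (Fin.succ_ne_zero k).symm]
    · simp [Function.update_of_ne h]
  right_inv n := by
    funext i
    by_cases h : i = k.succ
    · subst h
      simp [Function.update_of_ne (Fin.succ_ne_zero k).symm]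
    · simp [Function.update_of_ne h]

theorem flip_zero (N : ℕ) (k : Fin N) (n : Fin (N + 1) → ℤ) : flip N k n 0 = n 0 := by
  simp [flip, Function.update_of_ne (Fin.succ_ne_zero k).symm]

theorem flip_self (N : ℕ) (k : Fin N) (n : Fin (N + 1) → ℤ) :
    flip N k n k.succ = - n k.succ - n 0 := by
  simp [flip]

theorem flip_other (N : ℕ) (k : Fin N) (n : Fin (N + 1) → ℤ) (i : Fin (N + 1)) (h : i ≠ k.succ) :
    flip N k n i = n i := by
  simp [flip, Function.update_of_ne h]

theorem Q_flip (N : ℕ) (k : Fin N) (n : Fin (N + 1) → ℤ) : Q N (flip N k n) = Q N n := by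
  unfold Q
  rw [flip_zero]
  congr 1
  refine Finset.sum_congr rfl fun l _ => ?_
  by_cases h : l = k
  · subst h
    rw [flip_self]
    ring
  · rw [flip_other _ _ _ _ (fun h' => h (Fin.succ_injective _ h'))]

theorem sum_flip (N : ℕ) (k : Fin N) (n : Fin (N + 1) → ℤ) :
    ∑ l : Fin N, flip N k n l.succ = ∑ l : Fin N, n l.succ - 2 * n k.succ - n 0 := by
  have h : ∀ l : Fin N, flip N k n l.succ = n l.succ + if l = k then - 2 * n k.succ - n 0 else 0 := by
    intro l
    by_cases h : l = k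
    · subst h
      rw [flip_self, if_pos rfl]
      ring
    · rw [flip_other _ _ _ _ (fun h' => h (Fin.succ_injective _ h')), if_neg h, add_zero]
  simp only [h]
  rw [Finset.sum_add_distrib]
  simp
  ring

theorem neg_one_zpow_congr (a b : ℤ) (h : Even (a - b)) : (-1 : ℂ) ^ a = (-1) ^ b := by
  have h1 : a = b + (a - b) := by ring
  rw [h1, zpow_add₀ (by norm_num), h.neg_one_zpow, mul_one]

theorem weight_flip (N : ℕ) (t : ℝ) (k : Fin N) (n : Fin (N + 1) → ℤ) :
    weight (U N 1) (M N t) (flip N k n) = weight (U N 0) (M N t) n := by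
  rw [weight_eq, weight_eq, Q_flip, flip_zero, sum_flip]
  congr 1
  apply neg_one_zpow_congr
  exact ⟨- n k.succ, by ring⟩

theorem weight_neg (N : ℕ) (t : ℝ) (ε : ℤ) (n : Fin (N + 1) → ℤ) :
    weight (U N ε) (M N t) (-n) = weight (U N ε) (M N t) n := by
  rw [weight_eq, weight_eq]
  have hQ : Q N (-n) = Q N n := by
    unfold Q
    simp
  rw [hQ]
  congr 1
  apply neg_one_zpow_congr
  refine ⟨- (ε * n 0 + ∑ k : Fin N, n k.succ), ?_⟩
  simp only [Pi.neg_apply, Finset.sum_neg_distrib]
  ring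

/-- The two families of moments agree. -/
theorem moments_agree (N : ℕ) (t : ℝ) (α : Fin (N + 1) → ℕ)
    (hα : ∑ i, α i ≤ 2 * ((N + 1) / 2) - 1) (hN : 1 ≤ N) :
    moment (U N 0) (M N t) α = moment (U N 1) (M N t) α := by
  by_cases h : ∃ k : Fin N, α k.succ = 0
  · obtain ⟨k, hk⟩ := h
    apply moment_eq_of_equiv _ _ _ (flip N k) (weight_flip N t k)
    intro n
    refine Finset.prod_congr rfl fun i _ => ?_
    by_cases hi : i = k.succ
    · subst hi
      simp [hk]
    · rw [flip_other _ _ _ _ hi]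
  · push Not at h
    have h1 : N ≤ ∑ k : Fin N, α k.succ := by
      calc N = ∑ _k : Fin N, 1 := by simp
        _ ≤ _ := Finset.sum_le_sum fun k _ => Nat.one_le_iff_ne_zero.2 (h k)
    have h2 : ∑ i, α i = α 0 + ∑ k : Fin N, α k.succ := Fin.sum_univ_succ _
    have hodd : Odd (∑ i, α i) := by
      rw [Nat.odd_iff]
      omega
    rw [moment_odd _ _ (weight_neg N t 0) α hodd, moment_odd _ _ (weight_neg N t 1) α hodd]

/-! ### Positivity -/

theorem pow_pos_of_ne {x : ℝ} (h : x ≠ 0) : 0 < x ^ 2 := by positivity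

theorem form_ge (N : ℕ) (hN : 1 ≤ N) (x : Fin (N + 1) → ℝ) :
    1 / 2 * ∑ i, x i ^ 2 ≤ N * x 0 ^ 2 + ∑ k : Fin N, (x k.succ ^ 2 + x k.succ * x 0) := by
  have h1 : ∀ k : Fin N, 1 / 2 * x k.succ ^ 2 - 1 / 2 * x 0 ^ 2 ≤ x k.succ ^ 2 + x k.succ * x 0 := by
    intro k
    nlinarith [sq_nonneg (x k.succ + x 0)]
  have h2 := Finset.sum_le_sum fun (k : Fin N) (_ : k ∈ Finset.univ) => h1 k
  rw [Finset.sum_sub_distrib, Finset.sum_const, Finset.card_univ, Fintype.card_fin,
    ← Finset.mul_sum, nsmul_eq_mul] at h2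
  rw [Fin.sum_univ_succ]
  have h3 : (1 : ℝ) ≤ N := by exact_mod_cast hN
  nlinarith [sq_nonneg (x 0)]

theorem isParameter_M (N : ℕ) (hN : 1 ≤ N) (t : ℝ) (ht : 0 < t) : IsParameter (M N t) := by
  have hsymm : (M N t).IsSymm := by
    ext i j
    simp only [Matrix.transpose_apply, M]
    by_cases h : i = j
    · subst h; rfl
    · rw [if_neg h, if_neg (Ne.symm h)]
      simp only [or_comm]
  refine ⟨hsymm, ?_⟩
  have hre : (M N t).map Complex.re = fun i j => t * (if i = j then (if i = 0 then (N : ℝ) else 1)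
      else if i = 0 ∨ j = 0 then 1 / 2 else 0) := by
    ext i j
    simp only [Matrix.map_apply, M]
    split_ifs <;> simp
  rw [Matrix.posDef_iff_dotProduct_mulVec]
  refine ⟨?_, ?_⟩
  · ext i j
    have := congrFun (congrFun hsymm i) j
    simp only [Matrix.transpose_apply] at this
    simp only [Matrix.conjTranspose_apply, Matrix.map_apply, this, star_trivial]
  · intro x hx
    have h1 := form_eq N t x two_ne_zero
    have h2 := form_ge N hN x
    have h3 : star x ⬝ᵥ ((M N t).map Complex.re).mulVec x = ∑ i, ∑ j, x i * (t * (if i = j then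
        (if i = 0 then (N : ℝ) else 1) else if i = 0 ∨ j = 0 then 1 / 2 else 0)) * x j := by
      rw [hre]
      simp only [dotProduct, Matrix.mulVec, Finset.mul_sum, Pi.star_apply, star_trivial, mul_assoc]
    rw [h3, h1]
    have h4 : 0 < ∑ i, x i ^ 2 := by
      obtain ⟨i, hi⟩ := Function.ne_iff.1 hx
      exact Finset.sum_pos' (fun _ _ => sq_nonneg _) ⟨i, Finset.mem_univ _, pow_pos_of_ne hi⟩
    have h5 : 0 < N * x 0 ^ 2 + ∑ k : Fin N, (x k.succ ^ 2 + x k.succ * x 0) := by linarith
    positivity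

theorem Q_ge (N : ℕ) (hN : 1 ≤ N) (n : Fin (N + 1) → ℤ) :
    1 / 2 * ∑ i, (n i : ℝ) ^ 2 ≤ Q N n := by
  have := form_ge N hN (fun i => (n i : ℝ))
  unfold Q
  push_cast
  exact this

theorem summable_prod (g : ℕ) : ∀ F : Fin g → ℤ → ℝ, (∀ i, Summable (fun n => ‖F i n‖)) →
    Summable (fun n : Fin g → ℤ => ‖∏ i, F i (n i)‖) := by
  induction g with
  | zero =>
    intro F _
    exact Summable.of_finite
  | succ g ih =>
    intro F hF
    have h1 := ih (fun i => F i.succ) (fun i => hF _)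
    let e := Fin.consEquiv (fun _ : Fin (g + 1) => ℤ)
    have he : ∀ x : ℤ × (Fin g → ℤ), ∏ i, F i (e x i) = F 0 x.1 * ∏ i : Fin g, F i.succ (x.2 i) := by
      intro x
      rw [Fin.prod_univ_succ]
      simp [e]
    rw [← e.summable_iff]
    have h3 := (hF 0).mul_norm h1
    refine h3.congr fun x => ?_
    rw [Function.comp_apply, he]

theorem summable_one : Summable (fun n : ℤ => ‖Real.exp (-(n : ℝ) ^ 2)‖) := by
  have h : Summable (fun n : ℕ => Real.exp (-(n : ℝ) ^ 2)) := by
    refine Summable.of_nonneg_of_le (fun _ => (Real.exp_pos _).le) (fun n => ?_)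
      (summable_geometric_of_lt_one (Real.exp_pos _).le (Real.exp_lt_one_iff.2 neg_one_lt_zero))
    rw [← Real.exp_nat_mul]
    apply Real.exp_le_exp.2
    have : (n : ℝ) ≤ (n : ℝ) ^ 2 := by exact_mod_cast Nat.le_self_pow two_ne_zero n
    linarith
  apply Summable.of_nat_of_neg
  · refine h.congr fun n => ?_
    rw [Real.norm_eq_abs, abs_of_pos (Real.exp_pos _)]
    simp
  · refine h.congr fun n => ?_
    rw [Real.norm_eq_abs, abs_of_pos (Real.exp_pos _)]
    simp

theorem summable_Q (N : ℕ) (hN : 1 ≤ N) :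
    Summable (fun n : Fin (N + 1) → ℤ => Real.exp (-(Real.pi * Q N n))) := by
  have h := summable_prod (N + 1) (fun _ (m : ℤ) => Real.exp (-(m : ℝ) ^ 2)) (fun _ => summable_one)
  refine Summable.of_nonneg_of_le (fun _ => (Real.exp_pos _).le) (fun n => ?_) h
  rw [← Real.exp_sum, Real.norm_eq_abs, abs_of_pos (Real.exp_pos _)]
  apply Real.exp_le_exp.2
  rw [Finset.sum_neg_distrib]
  have h1 := Q_ge N hN n
  have h2 : 0 ≤ ∑ i, (n i : ℝ) ^ 2 := Finset.sum_nonneg fun _ _ => sq_nonneg _
  have h3 := Real.pi_gt_three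
  nlinarith

theorem tendsto_theta (N : ℕ) (hN : 1 ≤ N) (ε : ℤ) :
    Tendsto (fun t : ℝ => theta (U N ε) (M N t)) atTop (𝓝 1) := by
  have h1 : ∑' n : Fin (N + 1) → ℤ, (if n = 0 then (1 : ℂ) else 0) = 1 := by
    rw [tsum_ite_eq]
  rw [← h1]
  unfold theta
  refine tendsto_tsum_of_dominated_convergence (summable_Q N hN) (fun n => ?_) ?_
  · simp only [weight_eq]
    by_cases hn : n = 0
    · subst hn
      have hQ : Q N 0 = 0 := by simp [Q]
      simp [hQ]
    · rw [if_neg hn]
      have hpos : 0 < (Q N n : ℝ) := by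
        have h2 := Q_ge N hN n
        have h4 : 0 < ∑ i, (n i : ℝ) ^ 2 := by
          obtain ⟨i, hi⟩ := Function.ne_iff.1 hn
          have : (n i : ℝ) ≠ 0 := by exact_mod_cast hi
          exact Finset.sum_pos' (fun _ _ => sq_nonneg _) ⟨i, Finset.mem_univ _, by positivity⟩
        linarith
      have h5 : Tendsto (fun t : ℝ => Real.exp (-(Real.pi * t * Q N n))) atTop (𝓝 0) := by
        apply Real.tendsto_exp_atBot.comp
        apply tendsto_neg_atTop_atBot.comp
        have : (fun t : ℝ => Real.pi * t * Q N n) = fun t : ℝ => (Real.pi * Q N n) * t := by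
          funext t; ring
        rw [this]
        exact tendsto_id.const_mul_atTop (by positivity)
      have h6 : Tendsto (fun t : ℝ => (Real.exp (-(Real.pi * t * Q N n)) : ℂ)) atTop (𝓝 0) := by
        exact (Complex.continuous_ofReal.tendsto' 0 0 Complex.ofReal_zero).comp h5
      have h7 := h6.const_mul ((-1 : ℂ) ^ (ε * n 0 + ∑ k : Fin N, n k.succ))
      rwa [mul_zero] at h7
  · filter_upwards [eventually_ge_atTop 1] with t ht n
    rw [weight_eq, norm_mul, norm_zpow, norm_neg, norm_one, one_zpow, one_mul, Complex.norm_real,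
      Real.norm_eq_abs, abs_of_pos (Real.exp_pos _)]
    apply Real.exp_le_exp.2
    have h2 := Q_ge N hN n
    have h3 : 0 ≤ ∑ i, (n i : ℝ) ^ 2 := Finset.sum_nonneg fun _ _ => sq_nonneg _
    have h4 : 0 ≤ (Q N n : ℝ) := by linarith
    have h5 := Real.pi_pos
    have h6 : 0 ≤ Real.pi * Q N n := by positivity
    nlinarith

theorem main (N : ℕ) (hN : 1 ≤ N) : ¬ FixedParameterDetermined (N + 1) (2 * ((N + 1) / 2) - 1) := by
  intro hdet
  have e0 := (tendsto_theta N hN 0).eventually_ne one_ne_zero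
  have e1 := (tendsto_theta N hN 1).eventually_ne one_ne_zero
  obtain ⟨t, ht0, ht1, ht⟩ := (e0.and (e1.and (eventually_gt_atTop 0))).exists
  have h := hdet (M N t) (isParameter_M N hN t ht) (U N 0) (U N 1) ht0 ht1
    (fun α hα => moments_agree N t α hα hN) (Pi.single 0 1)
  have hth : theta (U N 0) (M N t) = theta (U N 1) (M N t) := by
    unfold theta
    rw [← (flip N ⟨0, hN⟩).tsum_eq (fun n => weight (U N 1) (M N t) n)]
    exact tsum_congr fun n => (weight_flip N t _ n).symm
  rw [gaussian, gaussian, ← hth] at h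
  have h2 := (div_left_inj' ht0).1 h
  rw [weight_eq, weight_eq] at h2
  have h3 : (Real.exp (-(Real.pi * t * Q N (Pi.single 0 1))) : ℂ) ≠ 0 := by
    exact_mod_cast (Real.exp_pos _).ne'
  have h4 := mul_right_cancel₀ h3 h2
  have h5 : ∑ k : Fin N, (Pi.single (0 : Fin (N + 1)) (1 : ℤ) : Fin (N + 1) → ℤ) k.succ = 0 := by
    refine Finset.sum_eq_zero fun k _ => ?_
    rw [Pi.single_eq_of_ne (Fin.succ_ne_zero k)]
  rw [h5] at h4
  simp at h4
  norm_num at h4

theorem mono {g d d' : ℕ} (h : d ≤ d') (H : ¬ FixedParameterDetermined g d') :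
    ¬ FixedParameterDetermined g d := by
  intro H'
  apply H
  intro B hB u u' hu hu' hα
  exact H' B hB u u' hu hu' fun α h' => hα α (h'.trans h)

/-- In no dimension `g ≥ 4` do the moments up to order three determine the complex discrete
Gaussians with a fixed parameter.  More generally, in no dimension `g ≥ 2` do the moments up to
order `2 ⌊g / 2⌋ - 1` do so. -/
theorem result :
    (∀ g : ℕ, 4 ≤ g → ¬ FixedParameterDetermined g 3) ∧
      ∀ g : ℕ, 2 ≤ g → ¬ FixedParameterDetermined g (2 * (g / 2) - 1) := by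
  have key : ∀ g : ℕ, 2 ≤ g → ¬ FixedParameterDetermined g (2 * (g / 2) - 1) := by
    intro g hg
    obtain ⟨N, rfl⟩ : ∃ N, g = N + 1 := ⟨g - 1, by omega⟩
    exact main N (by omega)
  exact ⟨fun g hg => mono (by omega) (key g (by omega)), key⟩

end Pool.Agent.Results.MP_405529_ag.FixedParameterFails
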